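import Pool.Agent.N973.ND.Stm

/-!
# ND-NS, ND-LOW, ND-NEG (helper713)
The translation between sets of primes and squarefree numbers (after `R413/SQ/NS.lean`), the
positive density of the class, and the sign of `kd`.
-/

set_option autoImplicit false

open scoped Classical

namespace Pool.Agent.N713.ND.NS

open Finset
open Pool.Agent.N973.ND

theorem cl_iff {D : ℕ} (hD : Squarefree D) :
    Cl D.primeFactors ↔ D % 4 = 1 ∧ ¬ 7 ∣ D := by
  unfold Cl
  rw [Nat.prod_primeFactors_of_squarefree hD]
  constructor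
  · rintro ⟨h1, h2⟩
    refine ⟨h2, fun h7 => ?_⟩
    exact (h1 7 (Nat.mem_primeFactors.2 ⟨by norm_num, h7, hD.ne_zero⟩)).2.2 rfl
  · rintro ⟨h1, h2⟩
    refine ⟨fun p hp => ?_, h1⟩
    obtain ⟨hpp, hpd, _⟩ := Nat.mem_primeFactors.1 hp
    refine ⟨hpp, ?_, ?_⟩
    · rintro rfl
      omega
    · rintro rfl
      exact h2 hpd

theorem card_eq (X : ℕ) (Q : Finset ℕ → Prop) :
    ((Icc 1 X).filter fun D => Squarefree D ∧ D % 4 = 1 ∧ ¬ 7 ∣ D ∧ Q D.primeFactors).card =
      ((SS X).filter Q).card := by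
  refine Finset.card_bij (fun D _ => D.primeFactors) ?_ ?_ ?_
  · intro D hD
    obtain ⟨h1, h2, h3, h3', h4⟩ := Finset.mem_filter.1 hD
    obtain ⟨h5, h6⟩ := Finset.mem_Icc.1 h1
    refine Finset.mem_filter.2 ⟨Finset.mem_filter.2 ⟨?_, (cl_iff h2).2 ⟨h3, h3'⟩, ?_⟩, h4⟩
    · rw [Finset.mem_powerset]
      intro p hp
      have := Nat.le_of_dvd (by omega) (Nat.dvd_of_mem_primeFactors hp)
      exact Finset.mem_range.2 (by omega)
    · rw [Nat.prod_primeFactors_of_squarefree h2]
      exact h6
  · intro D hD E hE h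
    have h2 := (Finset.mem_filter.1 hD).2.1
    have h3 := (Finset.mem_filter.1 hE).2.1
    have h' : D.primeFactors = E.primeFactors := h
    rw [← Nat.prod_primeFactors_of_squarefree h2, ← Nat.prod_primeFactors_of_squarefree h3, h']
  · intro S hS
    obtain ⟨h1, h2⟩ := Finset.mem_filter.1 hS
    obtain ⟨h3, h4, h5⟩ := Finset.mem_filter.1 h1
    have hpr : ∀ p ∈ S, p.Prime := fun p hp => (h4.1 p hp).1
    have hpf : (∏ p ∈ S, p).primeFactors = S := Nat.primeFactors_prod hpr
    have hsq : Squarefree (∏ p ∈ S, p) := by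
      refine Finset.squarefree_prod_of_pairwise_isCoprime (fun p hp q hq hpq => ?_)
        fun p hp => (hpr p hp).squarefree
      show IsRelPrime p q
      rw [← Nat.coprime_iff_isRelPrime]
      exact (Nat.coprime_primes (hpr p hp) (hpr q hq)).mpr hpq
    refine ⟨∏ p ∈ S, p, ?_, hpf⟩
    have hcl : Cl (∏ p ∈ S, p).primeFactors := by rw [hpf]; exact h4
    obtain ⟨c1, c2⟩ := (cl_iff hsq).1 hcl
    refine Finset.mem_filter.2 ⟨Finset.mem_Icc.2 ⟨?_, h5⟩, hsq, c1, c2, ?_⟩
    · exact Nat.one_le_iff_ne_zero.2 hsq.ne_zero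
    · rw [hpf]
      exact h2

theorem t_NS : S_NS := by
  intro hdq A b C hr hb
  refine (hdq A b C hr hb).congr fun X => ?_
  have e1 := card_eq X (Gd A b)
  have e2 := card_eq X (fun _ => True)
  rw [Finset.filter_true] at e2
  simp only [and_true] at e2
  rw [← e1, ← e2]

/-! ### The positive density -/

theorem sum_odd_sq (K : ℕ) : ∑ k ∈ Icc 1 K, (1 : ℝ) / (((2 * k + 1 : ℕ) : ℝ) ^ 2) ≤
    1 / 4 - 1 / (4 * ((K : ℝ) + 1)) := by
  induction K with
  | zero => norm_num
  | succ n ih =>
    rw [Finset.sum_Icc_succ_top (by omega)]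
    have h1 : (1 : ℝ) / (((2 * (n + 1) + 1 : ℕ) : ℝ) ^ 2) ≤
        1 / (4 * ((n : ℝ) + 1)) - 1 / (4 * (((n + 1 : ℕ) : ℝ) + 1)) := by
      push_cast
      rw [div_sub_div _ _ (by positivity) (by positivity), div_le_div_iff₀ (by positivity) (by positivity)]
      ring_nf
      have : (0 : ℝ) ≤ n := Nat.cast_nonneg _
      nlinarith
    linarith

/-- the numbers `1` modulo `28` -/
def TT' (X : ℕ) : Finset ℕ := (Icc 1 X).filter fun n => n % 28 = 1

theorem card_TT' (X : ℕ) : X / 28 ≤ (TT' X).card := by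
  have h : (range (X / 28)).card ≤ (TT' X).card := by
    apply card_le_card_of_injOn (fun k => 28 * k + 1)
    · intro k hk
      rw [mem_coe, mem_range] at hk
      rw [mem_coe, TT', mem_filter, mem_Icc]
      show (1 ≤ 28 * k + 1 ∧ 28 * k + 1 ≤ X) ∧ (28 * k + 1) % 28 = 1
      omega
    · intro a _ b _ h
      simpa using h
  rwa [card_range] at h

theorem card_B (X m : ℕ) (_ : 0 < m) :
    ((TT' X).filter fun n => m * m ∣ n).card ≤ X / (28 * (m * m)) + 1 := by
  rw [← card_range (X / (28 * (m * m)) + 1)]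
  apply card_le_card_of_injOn (fun n => n / (28 * (m * m)))
  · intro n hn
    rw [mem_coe, mem_filter, TT', mem_filter, mem_Icc] at hn
    rw [mem_coe, mem_range]
    exact Nat.lt_succ_of_le (Nat.div_le_div_right hn.1.1.2)
  · intro n hn n' hn' h
    rw [mem_coe, mem_filter, TT', mem_filter, mem_Icc] at hn hn'
    have h' : n / (28 * (m * m)) = n' / (28 * (m * m)) := h
    have hcop : Nat.Coprime 28 (m * m) := by
      have h1 : Nat.Coprime 28 n := by
        rw [Nat.Coprime, Nat.gcd_rec, hn.1.2]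
        norm_num
      exact Nat.Coprime.coprime_dvd_right hn.2 h1
    have h2 : n ≡ n' [MOD 28 * (m * m)] := by
      rw [← Nat.modEq_and_modEq_iff_modEq_mul hcop]
      refine ⟨?_, ?_⟩
      · show n % 28 = n' % 28
        rw [hn.1.2, hn'.1.2]
      · show n % (m * m) = n' % (m * m)
        rw [Nat.mod_eq_zero_of_dvd hn.2, Nat.mod_eq_zero_of_dvd hn'.2]
    have h3 : n % (28 * (m * m)) = n' % (28 * (m * m)) := h2
    rw [← Nat.div_add_mod n (28 * (m * m)), ← Nat.div_add_mod n' (28 * (m * m)), h', h3]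

theorem t_LOW : S_LOW := by
  refine ⟨1 / 112, 20000, by norm_num, fun X hX => ?_⟩
  have e2 := card_eq X (fun _ => True)
  rw [Finset.filter_true] at e2
  simp only [and_true] at e2
  rw [← e2]
  set K := Nat.sqrt X with hK
  -- the numbers `1` modulo `28` which are not squarefree
  have h1 : (TT' X).filter (fun n => ¬ Squarefree n) ⊆
      (Icc 1 K).biUnion fun k => (TT' X).filter fun n => (2 * k + 1) * (2 * k + 1) ∣ n := by
    intro n hn
    rw [mem_filter] at hn
    obtain ⟨hn1, hn2⟩ := hn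
    have hn1' := hn1
    rw [TT', mem_filter, mem_Icc] at hn1'
    rw [Nat.squarefree_iff_prime_squarefree] at hn2
    push Not at hn2
    obtain ⟨p, hp, hd⟩ := hn2
    have hodd : p % 2 = 1 := by
      rcases hp.eq_two_or_odd with h | h
      · exfalso
        subst h
        have : 2 ∣ n := (Dvd.intro _ rfl).trans hd
        omega
      · exact h
    have hp3 : 3 ≤ p := by
      have := hp.two_le
      omega
    rw [mem_biUnion]
    have hle : p * p ≤ X := (Nat.le_of_dvd (by omega) hd).trans hn1'.1.2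
    have hle' : p ≤ K := Nat.le_sqrt.2 hle
    refine ⟨p / 2, mem_Icc.2 ⟨by omega, by omega⟩, ?_⟩
    rw [mem_filter]
    have : 2 * (p / 2) + 1 = p := by omega
    rw [this]
    exact ⟨hn1, hd⟩
  have h2 : ((TT' X).filter (fun n => ¬ Squarefree n)).card ≤
      ∑ k ∈ Icc 1 K, (X / (28 * ((2 * k + 1) * (2 * k + 1))) + 1) :=
    (card_le_card h1).trans (card_biUnion_le.trans (sum_le_sum fun k _ =>
      card_B X (2 * k + 1) (by omega)))
  have h3 : (((TT' X).filter (fun n => ¬ Squarefree n)).card : ℝ) ≤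
      ∑ k ∈ Icc 1 K, ((X : ℝ) / 28 * (1 / (((2 * k + 1 : ℕ) : ℝ) ^ 2)) + 1) := by
    have h4 : (((TT' X).filter (fun n => ¬ Squarefree n)).card : ℝ) ≤
        ∑ k ∈ Icc 1 K, (((X / (28 * ((2 * k + 1) * (2 * k + 1))) : ℕ) : ℝ) + 1) := by
      exact_mod_cast h2
    refine h4.trans (sum_le_sum fun k _ => ?_)
    have h5 : (((X / (28 * ((2 * k + 1) * (2 * k + 1))) : ℕ) : ℝ)) ≤
        (X : ℝ) / ((28 * ((2 * k + 1) * (2 * k + 1)) : ℕ) : ℝ) := Nat.cast_div_le
    have h6 : (X : ℝ) / ((28 * ((2 * k + 1) * (2 * k + 1)) : ℕ) : ℝ) =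
        (X : ℝ) / 28 * (1 / (((2 * k + 1 : ℕ) : ℝ) ^ 2)) := by
      push_cast
      rw [div_mul_div_comm, mul_one, pow_two]
    linarith
  rw [sum_add_distrib, ← mul_sum, sum_const, Nat.card_Icc, Nat.add_sub_cancel, nsmul_eq_mul,
    mul_one] at h3
  have h4 := sum_odd_sq K
  have hX0 : (0 : ℝ) ≤ X := Nat.cast_nonneg _
  have h5 : (X : ℝ) / 28 * ∑ k ∈ Icc 1 K, (1 : ℝ) / (((2 * k + 1 : ℕ) : ℝ) ^ 2) ≤
      (X : ℝ) / 28 * (1 / 4) := by
    apply mul_le_mul_of_nonneg_left _ (by positivity)
    have : (0 : ℝ) ≤ 1 / (4 * ((K : ℝ) + 1)) := by positivity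
    linarith
  have h6 : (K : ℝ) ≤ X / 128 := by
    have h7 : K * K ≤ X := Nat.sqrt_le X
    have h8 : X < (K + 1) * (K + 1) := Nat.lt_succ_sqrt X
    have h9 : 128 ≤ K := by
      by_contra hc
      push Not at hc
      have : (K + 1) * (K + 1) ≤ 128 * 128 := Nat.mul_le_mul (by omega) (by omega)
      omega
    have h10 : 128 * K ≤ X := (Nat.mul_le_mul_right K h9).trans h7
    rw [le_div_iff₀ (by norm_num)]
    have : ((128 * K : ℕ) : ℝ) ≤ X := by exact_mod_cast h10
    push_cast at this
    linarith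
  have h7 : (X : ℝ) / 28 - 1 ≤ ((TT' X).card : ℝ) := by
    have h8 : (X : ℝ) / 28 < ((X / 28 : ℕ) : ℝ) + 1 := by
      rw [div_lt_iff₀ (by norm_num)]
      have : X < (X / 28 + 1) * 28 := by omega
      exact_mod_cast this
    have h9 : ((X / 28 : ℕ) : ℝ) ≤ (TT' X).card := by exact_mod_cast card_TT' X
    linarith
  have h8 : ((TT' X).filter Squarefree).card + ((TT' X).filter (fun n => ¬ Squarefree n)).card =
      (TT' X).card := card_filter_add_card_filter_not _
  have h9 : (((TT' X).filter Squarefree).card : ℝ) +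
      (((TT' X).filter (fun n => ¬ Squarefree n)).card : ℝ) = (TT' X).card := by
    exact_mod_cast h8
  have h10 : ((TT' X).filter Squarefree).card ≤
      ((Icc 1 X).filter fun D => Squarefree D ∧ D % 4 = 1 ∧ ¬ 7 ∣ D).card := by
    apply card_le_card
    intro n hn
    rw [mem_filter, TT', mem_filter] at hn
    rw [mem_filter]
    refine ⟨hn.1.1, hn.2, by omega, by omega⟩
  have h11 : (((TT' X).filter Squarefree).card : ℝ) ≤
      (((Icc 1 X).filter fun D => Squarefree D ∧ D % 4 = 1 ∧ ¬ 7 ∣ D).card : ℝ) := by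
    exact_mod_cast h10
  have hX' : (20000 : ℝ) ≤ X := by exact_mod_cast hX
  linarith

/-! ### The sign of `kd` -/

theorem t_NEG : S_NEG := by
  intro A b S hS hG
  set Sp : Finset S := univ.filter fun i : S => m7 (i : ℕ) = 1 with hSp
  set Pc : Finset S := univ.filter fun i : S => ty (i : ℕ) = 2 ∨ ty (i : ℕ) = 1 with hPc
  set N : S → S → ZMod 2 := fun i j => Pool.Agent.Y703.CQ.nr (j : ℕ) (i : ℕ) with hN
  set b' : S → ZMod 2 := fun i => b (i : ℕ) with hb'
  have h1 : ∀ x, Wk Sp Pc N b' x → ∀ j, x j = 0 := hG.1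
  -- extension by zero
  let ex : (Pc → ZMod 2) →ₗ[ZMod 2] (S → ZMod 2) :=
    { toFun := fun x j => if h : j ∈ Pc then x ⟨j, h⟩ else 0
      map_add' := by
        intro x y
        funext j
        by_cases h : j ∈ Pc
        · simp [h]
        · simp [h]
      map_smul' := by
        intro c x
        funext j
        by_cases h : j ∈ Pc
        · simp [h]
        · simp [h] }
  let L : (Pc → ZMod 2) →ₗ[ZMod 2] (Sp → ZMod 2) :=
    { toFun := fun x i => ∑ j, N i j * ex x j + TT N b' i * ex x i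
      map_add' := by
        intro x y
        funext i
        simp only [map_add, Pi.add_apply, mul_add, sum_add_distrib]
        ring
      map_smul' := by
        intro c x
        funext i
        simp only [map_smul, Pi.smul_apply, smul_eq_mul, RingHom.id_apply, mul_add, mul_sum]
        congr 1
        · exact sum_congr rfl fun j _ => by ring
        · ring }
  have hinj : Function.Injective L := by
    rw [← LinearMap.ker_eq_bot, LinearMap.ker_eq_bot']
    intro x hx
    have h2 : Wk Sp Pc N b' (ex x) := by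
      refine ⟨fun j hj => ?_, fun i hi => ?_⟩
      · show (if h : j ∈ Pc then x ⟨j, h⟩ else 0) = 0
        rw [dif_neg hj]
      · exact congrFun hx ⟨i, hi⟩
    funext j
    have h3 := h1 _ h2 (j : S)
    have h4 : ex x (j : S) = x j := by
      show (if h : (j : S) ∈ Pc then x ⟨j, h⟩ else 0) = x j
      rw [dif_pos j.2]
    rw [← h4, h3]
    rfl
  have h2 := LinearMap.finrank_le_finrank_of_injective hinj
  rw [Module.finrank_fintype_fun_eq_card, Module.finrank_fintype_fun_eq_card,
    Fintype.card_coe, Fintype.card_coe] at h2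
  -- the cardinalities
  have hm : ∀ p, m7 p = 1 ↔ ty p = 2 ∨ ty p = 3 := by
    intro p
    have := m7_le p
    unfold ty
    split_ifs <;> omega
  have e1 : ∀ Q : ℕ → Prop, (univ.filter fun i : S => Q (i : ℕ)).card = (S.filter Q).card := by
    intro Q
    rw [← card_map (Function.Embedding.subtype _)]
    congr 1
    ext p
    simp [and_comm]
  have e2 : Sp.card = (S.filter fun p => ty p = 2).card + (S.filter fun p => ty p = 3).card := by
    have e : Sp.card = (S.filter fun p => m7 p = 1).card := by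
      have e' := e1 (fun p => m7 p = 1)
      rw [hSp]
      convert e'
    rw [e, ← card_union_of_disjoint]
    · congr 1
      ext p
      rw [mem_union, mem_filter, mem_filter, mem_filter, hm]
      tauto
    · rw [disjoint_filter]
      intro p _ h h'
      omega
  have e3 : Pc.card = (S.filter fun p => ty p = 2).card + (S.filter fun p => ty p = 1).card := by
    have e : Pc.card = (S.filter fun p => ty p = 2 ∨ ty p = 1).card := by
      have e' := e1 (fun p => ty p = 2 ∨ ty p = 1)
      rw [hPc]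
      convert e'
    rw [e, ← card_union_of_disjoint]
    · congr 1
      ext p
      rw [mem_union, mem_filter, mem_filter, mem_filter]
      tauto
    · rw [disjoint_filter]
      intro p _ h h'
      omega
  unfold kd
  omega

end Pool.Agent.N713.ND.NS
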