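import Pool.Agent.N973.ND.Stm
import Pool.Agent.R413.SQ.FEW

/-!
# ND-FEW: few sets have no large inert prime `1` modulo `4` (helper713)
-/

set_option autoImplicit false

open scoped Classical

namespace Pool.Agent.N713.ND.FEW

open Finset Filter
open Pool.Agent.Y703.CX (sm la eL zz S_SIE)
open Pool.Agent.N973.ND
open Pool.Agent.Y703.CQ (S_MER)
open Pool.Agent.Y495.CX.Few (PN euler prod_pos' le_of_mem_prod mert eL_tendsto log_small zz_ge
  loglog_zz rpow_eq)
open Pool.Agent.R413.SQ.FEW (mer_set)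

/-- the classes of the primes whose type is not `0` -/
def AN : Finset ℕ := {1, 3, 9, 11, 15, 19, 23, 25, 27, 29, 31, 37, 39, 43, 47, 51, 53, 55}

lemma AN_card : AN.card = 18 := by
  unfold AN
  decide

lemma AN_cop : ∀ a ∈ AN, Nat.Coprime a 56 ∧ a % 56 = a := by
  unfold AN
  decide

lemma AN_mem {p : ℕ} (h : Pr p) (ht : ty p ≠ 0) : p % 56 ∈ AN := by
  obtain ⟨hp, h2, h7⟩ := h
  have e2 : p % 2 = 1 := by
    rcases hp.eq_two_or_odd with h | h
    · exact absurd h h2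
    · exact h
  have e7 : p % 7 ≠ 0 := by
    intro h0
    have h1 : 7 ∣ p := Nat.dvd_of_mod_eq_zero h0
    have h3 := (Nat.prime_dvd_prime_iff_eq (by norm_num) hp).1 h1
    exact h7 h3.symm
  have h3 : (p % 7 = 1 ∨ p % 7 = 2 ∨ p % 7 = 4) ∨ p % 4 = 3 := by
    by_contra hc
    push Not at hc
    apply ht
    unfold ty m7
    rw [if_neg (by omega), if_neg hc.2]
  have h4 : p % 56 = 1 ∨ p % 56 = 3 ∨ p % 56 = 9 ∨ p % 56 = 11 ∨ p % 56 = 15 ∨ p % 56 = 19 ∨
      p % 56 = 23 ∨ p % 56 = 25 ∨ p % 56 = 27 ∨ p % 56 = 29 ∨ p % 56 = 31 ∨ p % 56 = 37 ∨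
      p % 56 = 39 ∨ p % 56 = 43 ∨ p % 56 = 47 ∨ p % 56 = 51 ∨ p % 56 = 53 ∨ p % 56 = 55 := by
    omega
  unfold AN
  simpa using h4

/-- the family -/
noncomputable def LL (X : ℕ) : Finset (Finset ℕ) :=
  (SA X).filter fun S => ∀ p ∈ la (zz X) S, ty p ≠ 0

lemma mem_LL {X : ℕ} {S : Finset ℕ} : S ∈ LL X ↔ S ⊆ range (X + 1) ∧ (∀ p ∈ S, Pr p) ∧
    ∏ p ∈ S, p ≤ X ∧ ∀ p ∈ la (zz X) S, ty p ≠ 0 := by
  unfold LL SA
  rw [mem_filter, mem_filter, mem_powerset]
  tauto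

lemma LL_sub {X : ℕ} {S T : Finset ℕ} (hS : S ∈ LL X) (h : T ⊆ S) : T ∈ LL X := by
  rw [mem_LL] at hS ⊢
  obtain ⟨a0, a1, a2, a3⟩ := hS
  refine ⟨h.trans a0, fun p hp => a1 p (h hp), ?_, ?_⟩
  · refine le_trans ?_ a2
    exact prod_le_prod_of_subset_of_one_le' h fun p hp _ => (a1 p hp).1.one_lt.le
  · intro p hp
    refine a3 p ?_
    unfold la at hp ⊢
    rw [mem_filter] at hp ⊢
    exact ⟨h hp.1, hp.2⟩

/-- the logarithmic density of the family -/
lemma LL_sum (X : ℕ) : ∑ S ∈ LL X, (1 : ℝ) / ((∏ p ∈ S, p : ℕ) : ℝ) ≤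
    Real.exp (∑ p ∈ PN (zz X), (1 : ℝ) / p +
      ∑ p ∈ (PN X).filter (fun p => p % 56 ∈ AN), (1 : ℝ) / p) := by
  have h1 : ∀ S ∈ LL X, (1 : ℝ) / ((∏ p ∈ S, p : ℕ) : ℝ) = ∏ p ∈ S, (1 : ℝ) / p := by
    intro S _
    rw [prod_div_distrib, prod_const_one]
    push_cast
    rfl
  rw [sum_congr rfl h1]
  have h2 : ∑ S ∈ LL X, ∏ p ∈ S, (1 : ℝ) / p ≤
      ∑ S ∈ (PN (zz X) ∪ (PN X).filter (fun p => p % 56 ∈ AN)).powerset,
        ∏ p ∈ S, (1 : ℝ) / p := by
    refine sum_le_sum_of_subset_of_nonneg ?_ fun S _ _ => prod_nonneg fun p _ => by positivity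
    intro S hS
    rw [mem_LL] at hS
    obtain ⟨a0, a1, a2, a3⟩ := hS
    rw [mem_powerset]
    intro p hp
    have h6 := a1 p hp
    have h7 : p ≤ X := le_of_mem_prod (fun p hp => (a1 p hp).1) a2 hp
    rw [mem_union]
    by_cases hpz : p ≤ zz X
    · left
      rw [mem_filter, mem_Icc]
      exact ⟨⟨h6.1.one_lt.le, hpz⟩, h6.1⟩
    · right
      rw [mem_filter, mem_filter, mem_Icc]
      refine ⟨⟨⟨h6.1.one_lt.le, h7⟩, h6.1⟩, AN_mem h6 (a3 p ?_)⟩
      unfold la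
      rw [mem_filter]
      exact ⟨hp, hpz⟩
  refine h2.trans ((euler _ _ fun p _ => by positivity).trans ?_)
  apply Real.exp_le_exp.2
  rw [← sum_union_inter]
  have h3 : (0 : ℝ) ≤ ∑ p ∈ PN (zz X) ∩ (PN X).filter (fun p => p % 56 ∈ AN), (1 : ℝ) / p :=
    sum_nonneg fun p _ => by positivity
  linarith

theorem t_FEW : S_FEW := by
  intro hs hm ε hε
  obtain ⟨C, hC0, hC⟩ := mert
  obtain ⟨C₁, hC₁0, hC₁⟩ := mer_set hm AN AN_cop
  obtain ⟨C', hC'1, hC'⟩ := hs
  set M : ℝ := C' * Real.exp (C + C₁) with hM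
  have hM0 : 0 < M := by positivity
  have hev : ∀ᶠ X : ℕ in atTop, (((SA X).filter fun S => ∀ p ∈ la (zz X) S, ty p ≠ 0).card : ℝ) ≤
      ε * X := by
    filter_upwards [eL_tendsto.eventually (log_small 3 (1 / 8) (by norm_num)),
      eL_tendsto.eventually (eventually_ge_atTop 2), eventually_ge_atTop 3,
      eL_tendsto.eventually (eventually_ge_atTop (8 * Real.log (M / ε)))] with X h1 h2 h3 h0
    set l := eL X with hl
    have h4 := hC (zz X) (zz_ge h2)
    have h5 := loglog_zz h2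
    have h6 := hC₁ X h3
    rw [← hl] at h5
    rw [AN_card] at h6
    change _ ≤ ((18 : ℕ) : ℝ) / 24 * l + C₁ at h6
    have h7 := hC' X (LL X) (by omega)
      (fun S hS => ⟨fun p hp => ((mem_LL.1 hS).2.1 p hp).1, (mem_LL.1 hS).2.2.1⟩)
      (fun S hS T hT => LL_sub hS hT)
    have h8 := LL_sum X
    have hlX : Real.log X = Real.exp l := by
      have := rpow_eq (X := X) h2 1
      rwa [Real.rpow_one, one_mul] at this
    rw [hlX] at h7
    have h12 : Real.exp (∑ p ∈ PN (zz X), (1 : ℝ) / p +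
        ∑ p ∈ (PN X).filter (fun p => p % 56 ∈ AN), (1 : ℝ) / p) ≤
        Real.exp (C + C₁) * Real.exp ((7 / 8) * l) := by
      rw [← Real.exp_add]
      apply Real.exp_le_exp.2
      push_cast at h6
      linarith
    have h13 : ((LL X).card : ℝ) * Real.exp l ≤
        C' * X * (Real.exp (C + C₁) * Real.exp ((7 / 8) * l)) := by
      refine h7.trans ?_
      exact mul_le_mul_of_nonneg_left (h8.trans h12) (by positivity)
    have h14 : (M * X * Real.exp (-(1 / 8) * l)) * Real.exp l =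
        C' * X * (Real.exp (C + C₁) * Real.exp ((7 / 8) * l)) := by
      have : Real.exp ((7 / 8) * l) = Real.exp (-(1 / 8) * l) * Real.exp l := by
        rw [← Real.exp_add]
        congr 1
        ring
      rw [this, hM]
      ring
    rw [← h14] at h13
    have h15 : ((LL X).card : ℝ) ≤ M * X * Real.exp (-(1 / 8) * l) :=
      le_of_mul_le_mul_right h13 (Real.exp_pos _)
    have h16 : M * Real.exp (-(1 / 8) * l) ≤ ε := by
      have h17 : Real.exp (-(1 / 8) * l) ≤ Real.exp (-Real.log (M / ε)) := by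
        apply Real.exp_le_exp.2
        linarith
      rw [Real.exp_neg, Real.exp_log (by positivity)] at h17
      calc M * Real.exp (-(1 / 8) * l) ≤ M * (M / ε)⁻¹ := mul_le_mul_of_nonneg_left h17 hM0.le
        _ = ε := by field_simp
    have h18 : (0 : ℝ) ≤ X := Nat.cast_nonneg _
    calc (((SA X).filter fun S => ∀ p ∈ la (zz X) S, ty p ≠ 0).card : ℝ) = ((LL X).card : ℝ) := rfl
      _ ≤ M * X * Real.exp (-(1 / 8) * l) := h15
      _ = (M * Real.exp (-(1 / 8) * l)) * X := by ring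
      _ ≤ ε * X := mul_le_mul_of_nonneg_right h16 h18
  rw [eventually_atTop] at hev
  exact hev

end Pool.Agent.N713.ND.FEW
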