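import Pool.Agent.N299.ND.Stm

/-!
# Almost central decomposition of the unit
-/

set_option autoImplicit false

open scoped Topology Matrix.Norms.L2Operator
open Filter

noncomputable section

namespace Pool.Agent.N713.ND

open Pool.Agent.N299 Pool.Agent.N299.ND

lemma norm_le_one_of_pos {B : Type} [CStarAlgebra B] {e : B} (h1 : Pos e) (h2 : Pos (1 - e)) :
    ‖e‖ ≤ 1 := by
  let _ : PartialOrder B := CStarAlgebra.spectralOrder B
  let _ : StarOrderedRing B := CStarAlgebra.spectralOrderedRing B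
  rw [pos_iff] at h1 h2
  exact (CStarAlgebra.norm_le_one_iff_of_nonneg e h1).2 (sub_nonneg.1 h2)

lemma norm_proj {B : Type} [CStarAlgebra B] {p : B} (h : star p * p = p) : ‖p‖ ≤ 1 := by
  have h1 : ‖p‖ * ‖p‖ = ‖p‖ := by
    rw [← CStarRing.norm_star_mul_self, h]
  by_contra hc
  push Not at hc
  nlinarith

lemma sum_pow {B : Type} [CStarAlgebra B] {ι : Type} (S : Finset ι) (h : ι → B)
    (ho : ∀ j ∈ S, ∀ j' ∈ S, j ≠ j' → h j * h j' = 0) (n : ℕ) :
    (∑ j ∈ S, h j) ^ (n + 1) = ∑ j ∈ S, h j ^ (n + 1) := by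
  induction n with
  | zero => simp
  | succ n ih =>
    rw [pow_succ, ih, Finset.sum_mul_sum]
    refine Finset.sum_congr rfl fun j hj => ?_
    rw [Finset.sum_eq_single_of_mem j hj]
    · rw [pow_succ (h j) (n + 1)]
    · intro j' hj' hne
      rw [pow_succ, mul_assoc, ho j hj j' hj' hne.symm, mul_zero]

lemma norm_sum_le_one {B : Type} [CStarAlgebra B] {ι : Type} (S : Finset ι) (h : ι → B)
    (hsa : ∀ j ∈ S, star (h j) = h j) (hn : ∀ j ∈ S, ‖h j‖ ≤ 1)
    (ho : ∀ j ∈ S, ∀ j' ∈ S, j ≠ j' → h j * h j' = 0) : ‖∑ j ∈ S, h j‖ ≤ 1 := by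
  by_contra hc
  push Not at hc
  set H := ∑ j ∈ S, h j with hH
  have hHsa : IsSelfAdjoint H := by
    show star H = H
    rw [hH, star_sum]
    exact Finset.sum_congr rfl hsa
  obtain ⟨N, hN⟩ := pow_unbounded_of_one_lt (S.card : ℝ) hc
  have h1 : ‖H ^ 2 ^ N‖ = ‖H‖ ^ 2 ^ N := by
    have := hHsa.nnnorm_pow_two_pow N
    rw [← coe_nnnorm, this, NNReal.coe_pow, coe_nnnorm]
  have h2 : ‖H ^ 2 ^ N‖ ≤ S.card := by
    obtain ⟨M, hM⟩ : ∃ M, 2 ^ N = M + 1 := ⟨2 ^ N - 1, by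
      have : 0 < 2 ^ N := by positivity
      omega⟩
    rw [hM, hH, sum_pow S h ho M]
    refine (norm_sum_le _ _).trans ?_
    refine (Finset.sum_le_card_nsmul S _ 1 fun j hj => ?_).trans (by simp)
    exact (norm_pow_le' _ (Nat.succ_pos M)).trans (pow_le_one₀ (norm_nonneg _) (hn j hj))
  have h3 : ‖H‖ ^ N ≤ ‖H‖ ^ 2 ^ N := pow_le_pow_right₀ hc.le (Nat.lt_two_pow_self).le
  linarith

lemma tot_apply {B : Type} [CStarAlgebra B] {k : ℕ} {n : Fin k → ℕ} (ψ : ∀ j, B →ₗ[ℂ] M (n j))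
    (φ : ∀ j, M (n j) →ₗ[ℂ] B) (S : Finset (Fin k)) (x : B) :
    tot ψ φ S x = ∑ j ∈ S, φ j (ψ j x) := by
  unfold tot
  rw [LinearMap.sum_apply]
  rfl

/-- error of a commutator -/
lemma comm_err {B : Type} [CStarAlgebra B] {X H T a : B} {C d : ℝ} (hC : 0 ≤ C) (hd : 0 ≤ d)
    (hX : ‖X‖ ≤ 1) (ha : ‖a‖ ≤ C) (h1 : ‖T - H * a‖ ≤ d) (h2 : ‖T - a * H‖ ≤ d)
    (h3 : ‖X * T - T * X‖ ≤ C * d) (h4 : ‖X * H - H * X‖ ≤ 1 * d) :
    ‖X * H * a - a * (X * H)‖ ≤ (2 + 2 * C) * d := by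
  have e : X * H * a - a * (X * H) = -(X * (T - H * a)) + (X * T - T * X) + (T - a * H) * X +
      -(a * (X * H - H * X)) := by
    noncomm_ring
  rw [e]
  have b1 : ‖-(X * (T - H * a))‖ ≤ 1 * d := by
    rw [norm_neg]
    exact (norm_mul_le _ _).trans (mul_le_mul hX h1 (norm_nonneg _) zero_le_one)
  have b2 : ‖(T - a * H) * X‖ ≤ d * 1 :=
    (norm_mul_le _ _).trans (mul_le_mul h2 hX (norm_nonneg _) hd)
  have b3 : ‖-(a * (X * H - H * X))‖ ≤ C * (1 * d) := by
    rw [norm_neg]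
    exact (norm_mul_le _ _).trans (mul_le_mul ha h4 (norm_nonneg _) hC)
  refine (norm_add₄_le).trans ?_
  linarith

lemma norm_mul3 {B : Type} [CStarAlgebra B] {x y z : B} {d : ℝ} (hx : ‖x‖ ≤ 1) (hy : ‖y‖ ≤ d)
    (hz : ‖z‖ ≤ 1) : ‖x * y * z‖ ≤ d := by
  have h1 : ‖x * y‖ ≤ 1 * d := (norm_mul_le _ _).trans (mul_le_mul hx hy (norm_nonneg _) zero_le_one)
  have hd : 0 ≤ d := (norm_nonneg y).trans hy
  have h2 : ‖x * y * z‖ ≤ (1 * d) * 1 :=
    (norm_mul_le _ _).trans (mul_le_mul h1 hz (norm_nonneg _) (by linarith))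
  linarith

lemma norm_mul_one' {B : Type} [CStarAlgebra B] {x y : B} (hx : ‖x‖ ≤ 1) (hy : ‖y‖ ≤ 1) :
    ‖x * y‖ ≤ 1 := by
  have := (norm_mul_le x y).trans (mul_le_mul hx hy (norm_nonneg _) zero_le_one)
  linarith

theorem t_FL (hAPX : S_APX) (hOZL : S_OZL) (hUWD : S_UWD) (hLOC : S_LOC) (hCLS : S_CLS) :
    S_FL := by
  intro B _ I m hI hN hS F ε hF hε
  set K : ℕ := 2 * (3 * (m + 1)) with hK
  set C : ℝ := 1 + ∑ a ∈ F, ‖a‖ with hCdef
  have hC1 : 1 ≤ C := by
    have : 0 ≤ ∑ a ∈ F, ‖a‖ := Finset.sum_nonneg fun a _ => norm_nonneg a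
    linarith
  have hC0 : 0 ≤ C := by linarith
  have hFC : ∀ a ∈ F, ‖a‖ ≤ C := by
    intro a ha
    have := Finset.single_le_sum (f := fun a : B => ‖a‖) (fun a _ => norm_nonneg a) ha
    linarith
  set D : ℝ := 3 * K + 2 * C + 4 with hD
  have hK0 : (0 : ℝ) ≤ K := Nat.cast_nonneg K
  have hD0 : 0 < D := by positivity
  set d : ℝ := ε / D with hd
  have hd0 : 0 < d := div_pos hε hD0
  have hDd : D * d = ε := by rw [hd]; field_simp
  have hle : ∀ r : ℝ, r ≤ D → r * d ≤ ε := fun r hr => by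
    rw [← hDd]; exact mul_le_mul_of_nonneg_right hr hd0.le
  obtain ⟨e, k, n, c, ψ, φ, h⟩ := hAPX B I m hI hN F d hF hd0
  have hoz : ∀ j, OZ (φ j) := fun j => hOZL (n j) B (φ j) (h.fam.blk j).φcp (h.fam.blk j).φn
    (h.fam.blk j).oz
  have hloc := hLOC B I (3 * (m + 1)) hI (hUWD B I m hI hN hS)
  rw [← hK] at hloc
  have hen : ‖e‖ ≤ 1 := norm_le_one_of_pos h.epos h.ele
  have heeI : e * e ∈ I := hI.mulL e h.eI e
  have heen : ‖e * e‖ ≤ 1 := norm_mul_one' hen hen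
  -- the blocks
  have hmu : ∀ j, star (mu (n := n j) 0 0) * mu 0 0 = mu (n := n j) 0 0 := by
    intro j
    unfold mu
    rw [Matrix.star_eq_conjTranspose, Matrix.conjTranspose_single, star_one,
      Matrix.single_mul_single_same, mul_one]
  have hblk : ∀ j, ∃ x z y : Fin K → B, TRI K d (φ j (mu 0 0)) x z y ∧
      ‖φ j (mu 0 0) - (∑ s, x s * z s * y s) * φ j (mu 0 0)‖ ≤ d ∧
      ∀ s, ‖φ j (mu 0 0) * x s - x s * φ j (mu 0 0)‖ ≤ d ∧
        ‖φ j (mu 0 0) * z s - z s * φ j (mu 0 0)‖ ≤ d ∧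
        ‖φ j (mu 0 0) * y s - y s * φ j (mu 0 0)‖ ≤ d := by
    intro j
    refine hloc (φ j (mu 0 0)) ((h.fam.blk j).mem _) ((hoz j).pos _ ⟨mu 0 0, (hmu j).symm⟩) ?_ d hd0
    exact ((h.fam.blk j).φn _).trans (norm_proj (hmu j))
  choose x z y hxyz using hblk
  -- the colour classes
  set S : Fin (m + 1) → Finset (Fin k) := fun i => Finset.univ.filter fun j => c j = i with hSdef
  have horth : ∀ i, ∀ j ∈ S i, ∀ j' ∈ S i, j ≠ j' → ∀ x y, φ j x * φ j' y = 0 := by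
    intro i j hj j' hj' hne
    refine h.fam.orth j j' hne ?_
    rw [(Finset.mem_filter.1 hj).2, (Finset.mem_filter.1 hj').2]
  have hcls := fun i => hCLS k n B φ (S i) (fun j _ => hoz j) (horth i) K d x z y hd0
    (fun j _ => hxyz j)
  choose X Z Y h1 h2 h3 using hcls
  set H : Fin (m + 1) → B := fun i => tot ψ φ (S i) (e * e) with hH
  have hHs : ∀ i, H i = ∑ j ∈ S i, φ j (ψ j (e * e)) := fun i => tot_apply ψ φ (S i) (e * e)
  have hψn : ∀ j, ‖ψ j (e * e)‖ ≤ 1 := fun j => ((h.fam.blk j).ψn _ heeI).trans heen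
  have hψpos : ∀ j, Pos (ψ j (e * e)) := by
    intro j
    have := (h.fam.blk j).ψcp 1 (fun _ => e) (fun _ => 1) (fun _ => h.eI)
    simpa [h.epos.sa] using this
  have hHn : ∀ i, ‖H i‖ ≤ 1 := by
    intro i
    rw [hHs]
    refine norm_sum_le_one (S i) _ (fun j _ => ((hoz j).pos _ (hψpos j)).sa) (fun j _ => ?_)
      (fun j hj j' hj' hne => horth i j hj j' hj' hne _ _)
    exact ((h.fam.blk j).φn _).trans (hψn j)
  have hHI : ∀ i, H i ∈ I := by
    intro i
    rw [hHs]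
    exact Submodule.sum_mem I fun j _ => (h.fam.blk j).mem _
  have hcomH : ∀ i s, ‖X i s * H i - H i * X i s‖ ≤ 1 * d ∧ ‖Z i s * H i - H i * Z i s‖ ≤ 1 * d ∧
      ‖Y i s * H i - H i * Y i s‖ ≤ 1 * d := by
    intro i s
    rw [hHs]
    exact h2 i 1 (fun j => ψ j (e * e)) (fun j _ => hψn j) zero_le_one s
  have hcomT : ∀ i s, ∀ a ∈ F, ‖X i s * tot ψ φ (S i) a - tot ψ φ (S i) a * X i s‖ ≤ C * d ∧
      ‖Z i s * tot ψ φ (S i) a - tot ψ φ (S i) a * Z i s‖ ≤ C * d ∧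
      ‖Y i s * tot ψ φ (S i) a - tot ψ φ (S i) a * Y i s‖ ≤ C * d := by
    intro i s a ha
    rw [tot_apply]
    exact h2 i C (fun j => ψ j a) (fun j _ => ((h.fam.blk j).ψn a (hF a ha)).trans (hFC a ha)) hC0 s
  have hTa : ∀ i, ∀ a ∈ F, ‖tot ψ φ (S i) a - H i * a‖ ≤ d ∧ ‖tot ψ φ (S i) a - a * H i‖ ≤ d :=
    fun i a ha => h.comm (S i) (Or.inr ⟨i, rfl⟩) a ha
  refine ⟨H, fun i s => X i s * H i, fun i s => Z i s * H i, fun i s => Y i s * H i, ?_⟩
  constructor
  · exact hHI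
  · exact fun i s => hI.mulL _ (hHI i) _
  · exact fun i s => hI.mulL _ (hHI i) _
  · exact fun i s => hI.mulL _ (hHI i) _
  · exact hHn
  · exact fun i s => norm_mul_one' (h1 i s).1 (hHn i)
  · exact fun i s => norm_mul_one' (h1 i s).2.1 (hHn i)
  · exact fun i s => norm_mul_one' (h1 i s).2.2.1 (hHn i)
  · intro i a ha
    have e1 : H i * a - a * H i = -(tot ψ φ (S i) a - H i * a) + (tot ψ φ (S i) a - a * H i) := by
      abel
    rw [e1]
    refine (norm_add_le _ _).trans ?_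
    rw [norm_neg]
    have := hTa i a ha
    refine le_trans ?_ (hle 2 (by linarith))
    linarith [this.1, this.2]
  · intro i s a ha
    exact (comm_err hC0 hd0.le (h1 i s).1 (hFC a ha) (hTa i a ha).1 (hTa i a ha).2
      (hcomT i s a ha).1 (hcomH i s).1).trans (hle _ (by linarith))
  · intro i s a ha
    exact (comm_err hC0 hd0.le (h1 i s).2.1 (hFC a ha) (hTa i a ha).1 (hTa i a ha).2
      (hcomT i s a ha).2.1 (hcomH i s).2.1).trans (hle _ (by linarith))
  · intro i s a ha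
    exact (comm_err hC0 hd0.le (h1 i s).2.2.1 (hFC a ha) (hTa i a ha).1 (hTa i a ha).2
      (hcomT i s a ha).2.2 (hcomH i s).2.2).trans (hle _ (by linarith))
  · intro i s
    have e1 : Z i s * H i * (Z i s * H i) = -(Z i s * (Z i s * H i - H i * Z i s) * H i) +
        1 * (Z i s * Z i s) * (H i * H i) := by
      noncomm_ring
    rw [e1]
    have b1 : ‖Z i s * (Z i s * H i - H i * Z i s) * H i‖ ≤ d :=
      norm_mul3 (h1 i s).2.1 (by linarith [(hcomH i s).2.1]) (hHn i)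
    have b2 : ‖1 * (Z i s * Z i s) * (H i * H i)‖ ≤ d := by
      rw [one_mul]
      have := (norm_mul_le (Z i s * Z i s) (H i * H i)).trans
        (mul_le_mul (h1 i s).2.2.2 (norm_mul_one' (hHn i) (hHn i)) (norm_nonneg _) hd0.le)
      linarith
    refine (norm_add_le _ _).trans ?_
    rw [norm_neg]
    refine le_trans ?_ (hle 2 (by linarith))
    linarith
  · intro i
    have e1 : H i ^ 3 - ∑ s, X i s * H i * (Z i s * H i) * (Y i s * H i) =
        (1 - ∑ s, X i s * Z i s * Y i s) * H i ^ 3 + ∑ s, (X i s * Z i s * Y i s * H i ^ 3 -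
          X i s * H i * (Z i s * H i) * (Y i s * H i)) := by
      rw [Finset.sum_sub_distrib, sub_mul, one_mul, Finset.sum_mul]
      abel
    rw [e1]
    have b1 : ‖(1 - ∑ s, X i s * Z i s * Y i s) * H i ^ 3‖ ≤ d := by
      rw [hHs]
      exact h3 i (fun j => ψ j (e * e)) fun j _ => hψn j
    have b2 : ∀ s, ‖X i s * Z i s * Y i s * H i ^ 3 -
        X i s * H i * (Z i s * H i) * (Y i s * H i)‖ ≤ 3 * d := by
      intro s
      have e2 : X i s * Z i s * Y i s * H i ^ 3 - X i s * H i * (Z i s * H i) * (Y i s * H i) =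
          X i s * (Z i s * H i - H i * Z i s) * (H i * (Y i s * H i)) +
          X i s * (Z i s * H i) * (Y i s * H i - H i * Y i s) * H i +
          X i s * Z i s * (Y i s * H i - H i * Y i s) * (H i * H i) := by
        noncomm_ring
      rw [e2]
      have hx := (h1 i s).1
      have hz := (h1 i s).2.1
      have hy := (h1 i s).2.2.1
      have c1 := norm_mul3 (d := d) hx (by linarith [(hcomH i s).2.1] :
        ‖Z i s * H i - H i * Z i s‖ ≤ d) (norm_mul_one' (hHn i) (norm_mul_one' hy (hHn i)))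
      have c2 := norm_mul3 (d := d) (norm_mul_one' hx (norm_mul_one' hz (hHn i)))
        (by linarith [(hcomH i s).2.2] : ‖Y i s * H i - H i * Y i s‖ ≤ d) (hHn i)
      have c3 := norm_mul3 (d := d) (norm_mul_one' hx hz)
        (by linarith [(hcomH i s).2.2] : ‖Y i s * H i - H i * Y i s‖ ≤ d)
        (norm_mul_one' (hHn i) (hHn i))
      refine (norm_add₃_le).trans ?_
      linarith
    have b3 : ‖∑ s, (X i s * Z i s * Y i s * H i ^ 3 -
        X i s * H i * (Z i s * H i) * (Y i s * H i))‖ ≤ K * (3 * d) := by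
      refine (norm_sum_le _ _).trans ?_
      refine (Finset.sum_le_card_nsmul Finset.univ _ (3 * d) fun s _ => b2 s).trans ?_
      rw [Finset.card_univ, Fintype.card_fin, nsmul_eq_mul]
    refine (norm_add_le _ _).trans ?_
    refine le_trans ?_ (hle (3 * K + 1) (by linarith))
    linarith
  · intro a ha
    have e1 : ∑ i, H i = tot ψ φ Finset.univ (e * e) := by
      rw [tot_apply]
      simp only [hHs, hSdef]
      exact Finset.sum_fiberwise Finset.univ c fun j => φ j (ψ j (e * e))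
    rw [e1]
    have e2 : tot ψ φ Finset.univ (e * e) * a - a = (tot ψ φ Finset.univ (e * e) - e * e) * a +
        e * (e * a - a) + (e * a - a) := by
      noncomm_ring
    rw [e2]
    have b1 : ‖(tot ψ φ Finset.univ (e * e) - e * e) * a‖ ≤ d * C :=
      (norm_mul_le _ _).trans (mul_le_mul h.appe (hFC a ha) (norm_nonneg _) hd0.le)
    have b3 := (h.eF a ha).1
    have b2 : ‖e * (e * a - a)‖ ≤ 1 * d :=
      (norm_mul_le _ _).trans (mul_le_mul hen b3 (norm_nonneg _) zero_le_one)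
    refine (norm_add₃_le).trans ?_
    refine le_trans ?_ (hle (C + 2) (by linarith))
    linarith

end Pool.Agent.N713.ND
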