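import Pool.Agent.N627.ND.Stm

/-!
# ND/LO: localization of fine types
-/

set_option autoImplicit false
set_option linter.unusedSectionVars false

namespace Pool.Agent.N713.ND

open Pool.Agent.N627.ND

variable {V : Type}

lemma O_down {K : Type} {G : SimpleGraph V} {κ : V → K} {j n : ℕ} {z z' : Fin n → V}
    (h : O G κ (j + 1) n z = O G κ (j + 1) n z') : O G κ j n z = O G κ j n z' :=
  congrArg (fun t : OT K j n × Set ((Fin n → Fin (6 ^ (j + 1) + 1) → Prop) × OT K j (n + 1)) => t.1) h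

lemma O_ex {K : Type} {G : SimpleGraph V} {κ : V → K} {j n : ℕ} {z z' : Fin n → V}
    (h : O G κ (j + 1) n z = O G κ (j + 1) n z') (b : V) :
    ∃ b', dpat G (6 ^ (j + 1)) z b = dpat G (6 ^ (j + 1)) z' b' ∧
      O G κ j (n + 1) (ap z b) = O G κ j (n + 1) (ap z' b') := by
  have h2 : {p : (Fin n → Fin (6 ^ (j + 1) + 1) → Prop) × OT K j (n + 1) |
      ∃ b, p = (dpat G (6 ^ (j + 1)) z b, O G κ j (n + 1) (ap z b))} =
    {p | ∃ b, p = (dpat G (6 ^ (j + 1)) z' b, O G κ j (n + 1) (ap z' b))} :=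
    congrArg
      (fun t : OT K j n × Set ((Fin n → Fin (6 ^ (j + 1) + 1) → Prop) × OT K j (n + 1)) => t.2) h
  have h3 : (dpat G (6 ^ (j + 1)) z b, O G κ j (n + 1) (ap z b)) ∈
      {p : (Fin n → Fin (6 ^ (j + 1) + 1) → Prop) × OT K j (n + 1) |
        ∃ b, p = (dpat G (6 ^ (j + 1)) z b, O G κ j (n + 1) (ap z b))} := ⟨b, rfl⟩
  rw [h2] at h3
  obtain ⟨b', hb'⟩ := h3
  exact ⟨b', congrArg Prod.fst hb', congrArg Prod.snd hb'⟩

lemma O_zero {K : Type} {G : SimpleGraph V} {κ : V → K} {n : ℕ} {z z' : Fin n → V}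
    (h : O G κ 0 n z = O G κ 0 n z') : (∀ i, κ (z i) = κ (z' i)) ∧
      (∀ i k, (z i = z k) = (z' i = z' k)) ∧ ∀ i k, G.Adj (z i) (z k) = G.Adj (z' i) (z' k) := by
  have h' : ((fun i => κ (z i), fun i k => z i = z k, fun i k => G.Adj (z i) (z k)) :
      (Fin n → K) × (Fin n → Fin n → Prop) × (Fin n → Fin n → Prop)) =
    (fun i => κ (z' i), fun i k => z' i = z' k, fun i k => G.Adj (z' i) (z' k)) := h
  rw [Prod.mk.injEq, Prod.mk.injEq] at h'
  exact ⟨fun i => congrFun h'.1 i, fun i k => congrFun (congrFun h'.2.1 i) k,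
    fun i k => congrFun (congrFun h'.2.2 i) k⟩

lemma O_col {K : Type} {G : SimpleGraph V} {κ : V → K} {j n : ℕ} {z z' : Fin n → V}
    (h : O G κ j n z = O G κ j n z') (i : Fin n) : κ (z i) = κ (z' i) := by
  induction j with
  | zero => exact (O_zero h).1 i
  | succ j ih => exact ih (O_down h)

lemma T_snd [Nonempty V] {K : Type} {G : SimpleGraph V} {κ : V → K} {Q j n : ℕ}
    {z z' : Fin n → V} (h : T G κ Q (j + 1) n z = T G κ Q (j + 1) n z') (i : Fin n)
    (θ : TT K Q j 1) (q : Fin (Q + 1)) (e : Fin (3 * 6 ^ (j + 1) + 1)) :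
    (¬ Wide G (6 ^ (j + 1)) Q {x | T G κ Q j 1 (fun _ => x) = θ} ∧
      G.edist (z i) (cen G (6 ^ (j + 1)) Q {x | T G κ Q j 1 (fun _ => x) = θ} q) ≤ (e : ℕ)) =
    (¬ Wide G (6 ^ (j + 1)) Q {x | T G κ Q j 1 (fun _ => x) = θ} ∧
      G.edist (z' i) (cen G (6 ^ (j + 1)) Q {x | T G κ Q j 1 (fun _ => x) = θ} q) ≤ (e : ℕ)) := by
  have h2 := congrArg (fun t : TT K Q j n ×
      (Fin n → TT K Q j 1 → Fin (Q + 1) → Fin (3 * 6 ^ (j + 1) + 1) → Prop) ×
      Set ((Fin n → Fin (6 ^ (j + 1) + 1) → Prop) × Fin (Q + 1) × TT K Q j (n + 1)) => t.2.1) h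
  exact congrFun (congrFun (congrFun (congrFun h2 i) θ) q) e

/-- equality of fine types from the components -/
lemma T_mk [Nonempty V] {K : Type} {G : SimpleGraph V} {κ : V → K} {Q j n : ℕ}
    {z z' : Fin n → V} (h1 : T G κ Q j n z = T G κ Q j n z')
    (h2 : ∀ (i : Fin n) (θ : TT K Q j 1) (q : Fin (Q + 1)) (e : Fin (3 * 6 ^ (j + 1) + 1)),
      (¬ Wide G (6 ^ (j + 1)) Q {x | T G κ Q j 1 (fun _ => x) = θ} ∧
        G.edist (z i) (cen G (6 ^ (j + 1)) Q {x | T G κ Q j 1 (fun _ => x) = θ} q) ≤ (e : ℕ)) =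
      (¬ Wide G (6 ^ (j + 1)) Q {x | T G κ Q j 1 (fun _ => x) = θ} ∧
        G.edist (z' i) (cen G (6 ^ (j + 1)) Q {x | T G κ Q j 1 (fun _ => x) = θ} q) ≤ (e : ℕ)))
    (h3 : ∀ b, ∃ b', dpat G (6 ^ (j + 1)) z b = dpat G (6 ^ (j + 1)) z' b' ∧
      ow G κ Q j b = ow G κ Q j b' ∧ T G κ Q j (n + 1) (ap z b) = T G κ Q j (n + 1) (ap z' b'))
    (h4 : ∀ b, ∃ b', dpat G (6 ^ (j + 1)) z' b = dpat G (6 ^ (j + 1)) z b' ∧
      ow G κ Q j b = ow G κ Q j b' ∧ T G κ Q j (n + 1) (ap z' b) = T G κ Q j (n + 1) (ap z b')) :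
    T G κ Q (j + 1) n z = T G κ Q (j + 1) n z' := by
  show ((T G κ Q j n z,
      fun i θ q e => ¬ Wide G (6 ^ (j + 1)) Q {x | T G κ Q j 1 (fun _ => x) = θ} ∧
        G.edist (z i) (cen G (6 ^ (j + 1)) Q {x | T G κ Q j 1 (fun _ => x) = θ} q) ≤ (e : ℕ),
      {p | ∃ b, p = (dpat G (6 ^ (j + 1)) z b, ow G κ Q j b, T G κ Q j (n + 1) (ap z b))}) :
      TT K Q j n × (Fin n → TT K Q j 1 → Fin (Q + 1) → Fin (3 * 6 ^ (j + 1) + 1) → Prop) ×
      Set ((Fin n → Fin (6 ^ (j + 1) + 1) → Prop) × Fin (Q + 1) × TT K Q j (n + 1))) =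
    (T G κ Q j n z',
      fun i θ q (e : Fin (3 * 6 ^ (j + 1) + 1)) => ¬ Wide G (6 ^ (j + 1)) Q {x | T G κ Q j 1 (fun _ => x) = θ} ∧
        G.edist (z' i) (cen G (6 ^ (j + 1)) Q {x | T G κ Q j 1 (fun _ => x) = θ} q) ≤ (e : ℕ),
      {p | ∃ b, p = (dpat G (6 ^ (j + 1)) z' b, ow G κ Q j b, T G κ Q j (n + 1) (ap z' b))})
  refine Prod.ext h1 (Prod.ext ?_ ?_)
  · funext i θ q e
    exact h2 i θ q e
  · ext p
    constructor
    · rintro ⟨b, rfl⟩
      obtain ⟨b', e1, e2, e3⟩ := h3 b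
      exact ⟨b', by rw [e1, e2, e3]⟩
    · rintro ⟨b, rfl⟩
      obtain ⟨b', e1, e2, e3⟩ := h4 b
      exact ⟨b', by rw [e1, e2, e3]⟩

lemma own_spec [Nonempty V] {G : SimpleGraph V} {ρ Q : ℕ} {S : Set V} {b : V}
    (h : ¬ Wide G ρ Q S) (hb : b ∈ S) :
    G.edist b (cen G ρ Q S (own G ρ Q S b)) ≤ ((2 * ρ : ℕ) : ℕ∞) := by
  unfold own
  rw [dif_pos ⟨h, hb⟩]
  exact ((exists_cen G ρ Q S).choose_spec h b hb).choose_spec

lemma own_wide [Nonempty V] {G : SimpleGraph V} {ρ Q : ℕ} {S : Set V} {b : V}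
    (h : Wide G ρ Q S) : own G ρ Q S b = 0 := by
  unfold own
  rw [dif_neg (fun h' => h'.1 h)]

lemma κL_T [Nonempty V] {K : Type} {G : SimpleGraph V} {κ : V → K} {Q q R : ℕ} {c v v' : V}
    (h : κL G κ Q q R c v = κL G κ Q q R c v') (j : ℕ) (hj : j ≤ q) :
    T G κ Q j 1 (fun _ => v) = T G κ Q j 1 (fun _ => v') := by
  have h1 := congrArg Prod.fst h
  exact congrFun h1 ⟨j, by omega⟩

lemma κL_ow [Nonempty V] {K : Type} {G : SimpleGraph V} {κ : V → K} {Q q R : ℕ} {c v v' : V}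
    (h : κL G κ Q q R c v = κL G κ Q q R c v') (j : ℕ) (hj : j ≤ q) :
    ow G κ Q j v = ow G κ Q j v' := by
  have h1 := congrArg (fun t => t.2.1) h
  exact congrFun h1 ⟨j, by omega⟩

lemma κL_d [Nonempty V] {K : Type} {G : SimpleGraph V} {κ : V → K} {Q q R : ℕ} {c v v' : V}
    (h : κL G κ Q q R c v = κL G κ Q q R c v') (e : ℕ) (he : e ≤ R) :
    G.edist c v ≤ (e : ℕ∞) ↔ G.edist c v' ≤ (e : ℕ∞) := by
  have h1 := congrArg (fun t => t.2.2) h
  have h2 := congrFun h1 ⟨e, by omega⟩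
  exact iff_of_eq h2

lemma dpat_far {G : SimpleGraph V} {d n : ℕ} {z : Fin n → V} {b : V}
    (h : ∀ l, ((d : ℕ) : ℕ∞) < G.edist (z l) b) : dpat G d z b = fun _ _ => False := by
  funext i e
  apply eq_false
  intro h1
  have h2 : ((e : ℕ) : ℕ∞) ≤ (d : ℕ∞) := by
    have := e.2
    exact_mod_cast (by omega : (e : ℕ) ≤ d)
  exact absurd (lt_of_lt_of_le (h i) (h1.trans h2)) (lt_irrefl _)

lemma ap_castSucc {n : ℕ} (z : Fin n → V) (b : V) (l : Fin n) : ap z b l.castSucc = z l := by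
  unfold ap; simp

lemma ap_last {n : ℕ} (z : Fin n → V) (b : V) : ap z b (Fin.last n) = b := by
  unfold ap; simp

/-- gluing of a distant point -/
lemma glue (hRI : S_RI) (hCO : S_CO) [Nonempty V] {K : Type} {G : SimpleGraph V} {κ : V → K}
    {Q j n : ℕ} (hn : n + 1 + j ≤ Q + 1) {z z' : Fin n → V} {b b' : V}
    (h1 : T G κ Q j n z = T G κ Q j n z')
    (h2 : T G κ Q j 1 (fun _ => b) = T G κ Q j 1 (fun _ => b'))
    (hz : ∀ l, ((6 ^ (j + 1) : ℕ) : ℕ∞) < G.edist (z l) b)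
    (hz' : ∀ l, ((6 ^ (j + 1) : ℕ) : ℕ∞) < G.edist (z' l) b') :
    T G κ Q j (n + 1) (ap z b) = T G κ Q j (n + 1) (ap z' b') := by
  have e6 : 6 * 6 ^ j = 6 ^ (j + 1) := by ring
  let π : Fin (n + 1) → ℕ := Fin.lastCases 1 (fun _ => 0)
  have hπ0 : ∀ l : Fin n, π l.castSucc = 0 := fun l => by simp [π]
  have hπ1 : π (Fin.last n) = 1 := by simp [π]
  refine hCO V K G κ Q j (n + 1) hn (ap z b) (ap z' b') π ?_ ?_
  · intro i k hik
    rw [e6]
    revert hik
    refine Fin.lastCases ?_ (fun i => ?_) i <;> refine Fin.lastCases ?_ (fun k => ?_) k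
    · intro h; exact absurd rfl h
    · intro _
      rw [ap_last, ap_castSucc, ap_last, ap_castSucc, SimpleGraph.edist_comm,
        SimpleGraph.edist_comm (u := b')]
      exact ⟨hz k, hz' k⟩
    · intro _
      rw [ap_last, ap_castSucc, ap_last, ap_castSucc]
      exact ⟨hz i, hz' i⟩
    · intro h
      rw [hπ0, hπ0] at h
      exact absurd rfl h
  · intro i
    refine Fin.lastCases ?_ (fun i => ?_) i
    · have e1 : ∀ (y : Fin n → V) (a : V),
          (fun k => if π k = π (Fin.last n) then ap y a k else ap y a (Fin.last n)) =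
          fun k : Fin (n + 1) => (fun _ : Fin 1 => a) ((fun _ => 0 : Fin (n + 1) → Fin 1) k) := by
        intro y a
        funext k
        refine Fin.lastCases ?_ (fun k => ?_) k
        · simp [ap_last]
        · rw [hπ0, hπ1, if_neg (by norm_num), ap_last]
      rw [e1, e1]
      exact (hRI V K G κ Q j 1 (n + 1) (fun _ => b) (fun _ => b') (fun _ => 0)).2 h2
    · let f : Fin (n + 1) → Fin n := Fin.lastCases i id
      have hf1 : ∀ l : Fin n, f l.castSucc = l := fun l => by simp [f]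
      have hf2 : f (Fin.last n) = i := by simp [f]
      have e1 : ∀ (y : Fin n → V) (a : V),
          (fun k => if π k = π i.castSucc then ap y a k else ap y a i.castSucc) =
          fun k : Fin (n + 1) => y (f k) := by
        intro y a
        funext k
        refine Fin.lastCases ?_ (fun k => ?_) k
        · rw [hπ0, hπ1, if_neg (by norm_num), hf2, ap_castSucc]
        · rw [hπ0, hπ0, if_pos rfl, hf1, ap_castSucc]
      rw [e1, e1]
      exact (hRI V K G κ Q j n (n + 1) z z' f).2 h1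

/-- one step -/
lemma step (hRI : S_RI) (hCO : S_CO) (hBD : S_BD) [Nonempty V] {K : Type} {G : SimpleGraph V}
    {κ : V → K} {Q q R : ℕ} {c : V} {j r r' : ℕ} (hjq : j + 1 ≤ q) (hr : r' + 5 * 6 ^ (j + 1) ≤ r)
    (hR : r + 6 ^ (j + 1) ≤ R)
    (ih : ∀ n, n + j ≤ Q + 1 → ∀ z z' : Fin n → V, (∀ i, G.edist c (z i) ≤ r) →
      (∀ i, G.edist c (z' i) ≤ r) →
      O (ball G c R) (κL G κ Q q R c) j n z = O (ball G c R) (κL G κ Q q R c) j n z' →
      T G κ Q j n z = T G κ Q j n z')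
    {n : ℕ} (hn : n + (j + 1) ≤ Q + 1) {z z' : Fin n → V} (hz : ∀ i, G.edist c (z i) ≤ r')
    (hz' : ∀ i, G.edist c (z' i) ≤ r')
    (h : O (ball G c R) (κL G κ Q q R c) (j + 1) n z =
      O (ball G c R) (κL G κ Q q R c) (j + 1) n z') (b : V) :
    ∃ b', dpat G (6 ^ (j + 1)) z b = dpat G (6 ^ (j + 1)) z' b' ∧
      ow G κ Q j b = ow G κ Q j b' ∧
      T G κ Q j (n + 1) (ap z b) = T G κ Q j (n + 1) (ap z' b') := by
  set ρ : ℕ := 6 ^ (j + 1) with hρ
  have hrr : r' ≤ r := by omega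
  have hrr' : ((r' : ℕ) : ℕ∞) ≤ (r : ℕ∞) := by exact_mod_cast hrr
  by_cases hb : G.edist c b ≤ (r : ℕ∞)
  · -- a near point
    obtain ⟨b', hd, hO⟩ := O_ex h b
    have hcol : κL G κ Q q R c b = κL G κ Q q R c b' := by
      have := O_col hO (Fin.last n)
      rwa [ap_last, ap_last] at this
    have hb' : G.edist c b' ≤ (r : ℕ∞) := (κL_d hcol r (by omega)).1 hb
    refine ⟨b', ?_, κL_ow hcol j (by omega), ?_⟩
    · have hdp : ∀ (y : Fin n → V) (a : V), G.edist c a ≤ (r : ℕ∞) →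
          dpat (ball G c R) ρ y a = dpat G ρ y a := by
        intro y a ha
        funext i e
        exact propext (hBD V G c (y i) a r e R ha (by have := e.2; omega))
      rw [← hdp z b hb, ← hdp z' b' hb']
      exact hd
    · apply ih (n + 1) (by omega) _ _ _ _ hO
      · intro i
        refine Fin.lastCases ?_ (fun i => ?_) i
        · rw [ap_last]; exact hb
        · rw [ap_castSucc]; exact (hz i).trans hrr'
      · intro i
        refine Fin.lastCases ?_ (fun i => ?_) i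
        · rw [ap_last]; exact hb'
        · rw [ap_castSucc]; exact (hz' i).trans hrr'
  · -- a distant point
    have hfar : ∀ l, ((5 * ρ : ℕ) : ℕ∞) < G.edist (z l) b := by
      intro l
      by_contra hl
      rw [not_lt] at hl
      apply hb
      calc G.edist c b ≤ G.edist c (z l) + G.edist (z l) b := G.edist_triangle
        _ ≤ (r' : ℕ∞) + ((5 * ρ : ℕ) : ℕ∞) := add_le_add (hz l) hl
        _ = ((r' + 5 * ρ : ℕ) : ℕ∞) := by push_cast; rfl
        _ ≤ (r : ℕ∞) := by exact_mod_cast hr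
    have hfar1 : ∀ l, ((ρ : ℕ) : ℕ∞) < G.edist (z l) b := by
      intro l
      refine lt_of_le_of_lt ?_ (hfar l)
      exact_mod_cast (by omega : ρ ≤ 5 * ρ)
    have hT : T G κ Q j n z = T G κ Q j n z' :=
      ih n (by omega) z z' (fun i => (hz i).trans hrr') (fun i => (hz' i).trans hrr') (O_down h)
    have hcolz : ∀ l, T G κ Q (j + 1) 1 (fun _ => z l) = T G κ Q (j + 1) 1 (fun _ => z' l) :=
      fun l => κL_T (O_col h l) (j + 1) hjq
    set S : Set V := {x | T G κ Q j 1 (fun _ => x) = T G κ Q j 1 (fun _ => b)} with hS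
    have hbS : b ∈ S := rfl
    -- it suffices to find a distant point of the same type with the same number
    suffices hex : ∃ b' ∈ S, ow G κ Q j b = ow G κ Q j b' ∧
        ∀ l, ((ρ : ℕ) : ℕ∞) < G.edist (z' l) b' by
      obtain ⟨b', hb'S, how, hfar'⟩ := hex
      refine ⟨b', ?_, how, ?_⟩
      · rw [dpat_far hfar1, dpat_far hfar']
      · exact glue hRI hCO (by omega) hT (Eq.symm hb'S)
          hfar1 hfar'
    by_cases hW : Wide G ρ Q S
    · obtain ⟨x, hxS, hx⟩ := hW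
      have hex : ∃ i, ∀ l, ((ρ : ℕ) : ℕ∞) < G.edist (z' l) (x i) := by
        by_contra hcon
        push Not at hcon
        choose l hl using hcon
        obtain ⟨i, k, hik, hlk⟩ := Fintype.exists_ne_map_eq_of_card_lt l (by
          rw [Fintype.card_fin, Fintype.card_fin]; omega)
        have h1 := hx i k hik
        apply absurd h1
        rw [not_lt]
        calc G.edist (x i) (x k) ≤ G.edist (x i) (z' (l i)) + G.edist (z' (l i)) (x k) :=
              G.edist_triangle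
          _ ≤ (ρ : ℕ∞) + (ρ : ℕ∞) := by
              refine add_le_add ?_ ?_
              · rw [SimpleGraph.edist_comm]; exact hl i
              · rw [hlk]; exact hl k
          _ = ((2 * ρ : ℕ) : ℕ∞) := by push_cast; ring
      obtain ⟨i, hi⟩ := hex
      refine ⟨x i, hxS i, ?_, hi⟩
      have hW' : Wide G ρ Q S := ⟨x, hxS, hx⟩
      have hS' : {y | T G κ Q j 1 (fun _ => y) = T G κ Q j 1 (fun _ => x i)} = S := by
        have h2 : T G κ Q j 1 (fun _ => x i) = T G κ Q j 1 (fun _ => b) := hxS i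
        rw [h2]
      unfold ow
      rw [hS', own_wide hW', own_wide hW']
    · refine ⟨b, hbS, rfl, ?_⟩
      intro l
      have hc0 : G.edist b (cen G ρ Q S (own G ρ Q S b)) ≤ ((2 * ρ : ℕ) : ℕ∞) := own_spec hW hbS
      set c0 := cen G ρ Q S (own G ρ Q S b) with hc0def
      have h3 : ¬ G.edist (z l) c0 ≤ ((3 * ρ : ℕ) : ℕ∞) := by
        intro h3
        apply absurd (hfar l)
        rw [not_lt]
        calc G.edist (z l) b ≤ G.edist (z l) c0 + G.edist c0 b := G.edist_triangle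
          _ ≤ ((3 * ρ : ℕ) : ℕ∞) + ((2 * ρ : ℕ) : ℕ∞) := by
              refine add_le_add h3 ?_
              rw [SimpleGraph.edist_comm]; exact hc0
          _ = ((5 * ρ : ℕ) : ℕ∞) := by push_cast; ring
      have h4 := T_snd (hcolz l) 0 (T G κ Q j 1 (fun _ => b)) (own G ρ Q S b)
        ⟨3 * 6 ^ (j + 1), by omega⟩
      have h5 : ¬ G.edist (z' l) c0 ≤ ((3 * ρ : ℕ) : ℕ∞) := by
        intro h5
        apply h3
        have h6 : (¬ Wide G ρ Q S ∧ G.edist (z l) c0 ≤ ((3 * ρ : ℕ) : ℕ∞)) =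
            (¬ Wide G ρ Q S ∧ G.edist (z' l) c0 ≤ ((3 * ρ : ℕ) : ℕ∞)) := h4
        exact (h6.symm ▸ (⟨hW, h5⟩ : ¬ Wide G ρ Q S ∧ G.edist (z' l) c0 ≤ ((3 * ρ : ℕ) : ℕ∞)) :
          ¬ Wide G ρ Q S ∧ G.edist (z l) c0 ≤ ((3 * ρ : ℕ) : ℕ∞)).2
      by_contra h7
      rw [not_lt] at h7
      apply h5
      calc G.edist (z' l) c0 ≤ G.edist (z' l) b + G.edist b c0 := G.edist_triangle
        _ ≤ (ρ : ℕ∞) + ((2 * ρ : ℕ) : ℕ∞) := add_le_add h7 hc0
        _ = ((3 * ρ : ℕ) : ℕ∞) := by push_cast; ring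

theorem lo (hRI : S_RI) (hCO : S_CO) (hBD : S_BD) : S_LO := by
  intro V _ K G κ Q q n r R c hnq hrR z z' hz hz' h
  -- the radii
  let rad : ℕ → ℕ := fun j => r + (6 ^ (q + 1) - 6 ^ (j + 1))
  have hpow : ∀ j, j ≤ q → 6 ^ (j + 1) ≤ 6 ^ (q + 1) := fun j hj =>
    Nat.pow_le_pow_right (by norm_num) (by omega)
  have hR1 : ∀ j, j ≤ q → rad j + 6 ^ (q + 1) ≤ R := by
    intro j hj
    have h1 : 6 ^ (q + 2) = 6 * 6 ^ (q + 1) := by ring
    have h2 : 0 < 6 ^ j := by positivity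
    have h3 : 0 < 6 ^ q := by positivity
    show r + (6 ^ (q + 1) - 6 ^ (j + 1)) + 6 ^ (q + 1) ≤ R
    omega
  have claim : ∀ j, j ≤ q → ∀ n, n + j ≤ Q + 1 → ∀ z z' : Fin n → V,
      (∀ i, G.edist c (z i) ≤ rad j) → (∀ i, G.edist c (z' i) ≤ rad j) →
      O (ball G c R) (κL G κ Q q R c) j n z = O (ball G c R) (κL G κ Q q R c) j n z' →
      T G κ Q j n z = T G κ Q j n z' := by
    intro j
    induction j with
    | zero =>
      intro _ n _ z z' hz hz' h
      obtain ⟨h1, h2, h3⟩ := O_zero h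
      show ((fun i => κ (z i), fun i k => z i = z k, fun i k => G.Adj (z i) (z k)) :
          (Fin n → K) × (Fin n → Fin n → Prop) × (Fin n → Fin n → Prop)) =
        (fun i => κ (z' i), fun i k => z' i = z' k, fun i k => G.Adj (z' i) (z' k))
      have hle : ∀ y : Fin n → V, (∀ i, G.edist c (y i) ≤ rad 0) → ∀ i, G.edist c (y i) ≤ R := by
        intro y hy i
        refine (hy i).trans ?_
        have := hR1 0 (by omega)
        have h3 : 0 < 6 ^ (q + 1) := by positivity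
        exact_mod_cast (by omega : rad 0 ≤ R)
      refine Prod.ext ?_ (Prod.ext ?_ ?_)
      · funext i
        have h4 := κL_T (h1 i) 0 (by omega)
        have h5 : ((fun _ => κ (z i), fun _ _ => z i = z i, fun _ _ => G.Adj (z i) (z i)) :
            (Fin 1 → K) × (Fin 1 → Fin 1 → Prop) × (Fin 1 → Fin 1 → Prop)) =
          (fun _ => κ (z' i), fun _ _ => z' i = z' i, fun _ _ => G.Adj (z' i) (z' i)) := h4
        exact congrFun (congrArg Prod.fst h5) 0
      · funext i k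
        exact h2 i k
      · funext i k
        have h4 := h3 i k
        have h5 : ∀ y : Fin n → V, (∀ i, G.edist c (y i) ≤ rad 0) →
            ((ball G c R).Adj (y i) (y k) ↔ G.Adj (y i) (y k)) := by
          intro y hy
          constructor
          · exact fun h => h.1
          · exact fun h => ⟨h, hle y hy i, hle y hy k⟩
        exact propext ((h5 z hz).symm.trans ((iff_of_eq h4).trans (h5 z' hz')))
    | succ j ih =>
      intro hj n hn z z' hz hz' h
      have ih' := ih (by omega)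
      have hp1 : 6 ^ (j + 1 + 1) = 6 * 6 ^ (j + 1) := by ring
      have hp2 := hpow (j + 1) hj
      have hrad : rad (j + 1) + 5 * 6 ^ (j + 1) ≤ rad j := by
        show r + (6 ^ (q + 1) - 6 ^ (j + 1 + 1)) + 5 * 6 ^ (j + 1) ≤
          r + (6 ^ (q + 1) - 6 ^ (j + 1))
        omega
      have hRj : rad j + 6 ^ (j + 1) ≤ R := by
        have := hR1 j (by omega)
        have := hpow j (by omega)
        omega
      have hrr : ((rad (j + 1) : ℕ) : ℕ∞) ≤ (rad j : ℕ∞) := by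
        exact_mod_cast (by omega : rad (j + 1) ≤ rad j)
      refine T_mk ?_ ?_ ?_ ?_
      · exact ih' n (by omega) z z' (fun i => (hz i).trans hrr) (fun i => (hz' i).trans hrr)
          (O_down h)
      · intro i θ q' e
        exact T_snd (κL_T (O_col h i) (j + 1) hj) 0 θ q' e
      · exact fun b => step hRI hCO hBD hj hrad hRj ih' hn hz hz' h b
      · exact fun b => step hRI hCO hBD hj hrad hRj ih' hn hz' hz h.symm b
  refine claim q le_rfl n hnq z z' ?_ ?_ h
  · intro i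
    have : rad q = r := by show r + (6 ^ (q + 1) - 6 ^ (q + 1)) = r; omega
    rw [this]; exact hz i
  · intro i
    have : rad q = r := by show r + (6 ^ (q + 1) - 6 ^ (q + 1)) = r; omega
    rw [this]; exact hz' i

end Pool.Agent.N713.ND
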